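import Pool.Agent.H32.N6H.Targets

/-!
# A smooth zero on every hyperplane section over a finite field
-/

set_option autoImplicit false

open Polynomial Matrix NumberField IsDedekindDomain Pool.Agent.H32.QC Pool.Agent.H34.N6
open Pool.Agent.H32.N6H

namespace Pool.Agent.H38.N6H

theorem pf_FFZ (hPLN : T_PLN) (hKDM : T_KDM) (hAVD : T_AVD) (hCHW : T_CHW) : T_FFZ := by
  classical
  intro F _ _ n hn hcard A B l h hl
  have := Fintype.ofFinite F
  obtain ⟨hpl, hdeg⟩ := hPLN F n A B l h hl
  obtain ⟨k1, k2, W3, hW3, k3⟩ := hKDM F n A B l h hl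
  choose W2 hW2 k2' using k2
  let T : Type := Option {t : F // t ∈ (pl A B l).roots.toFinset}
  let W : T → Submodule F (Fin (n + 1) → F) := fun o => match o with
    | none => W3
    | some t => W2 t
  have hWf : ∀ i : T, Module.finrank F (W i) ≤ 2 := by
    intro i
    cases i with
    | none => exact hW3
    | some t => exact hW2 t
  have hT : Fintype.card T ≤ n + 1 := by
    show Fintype.card (Option {t : F // t ∈ (pl A B l).roots.toFinset}) ≤ n + 1
    rw [Fintype.card_option, Fintype.card_coe]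
    have h1 : (pl A B l).roots.toFinset.card ≤ n :=
      (Multiset.toFinset_card_le _).trans ((Polynomial.card_roots' _).trans hdeg)
    omega
  obtain ⟨g, hh, hgh⟩ := hAVD F T (n + 1) W hWf ⟨Finset.univ, by
    rw [Finset.card_univ]
    rw [Nat.card_eq_fintype_card] at hcard
    calc Fintype.card T * (n + 1) ≤ (n + 1) * (n + 1) := Nat.mul_le_mul_right _ hT
      _ ≤ (n + 2) * (n + 1) := Nat.mul_le_mul_right _ (by omega)
      _ < _ := hcard⟩
  obtain ⟨x, hx, hA, hB, hlx, hgx, hhx⟩ := hCHW F (n + 1) (by omega) A B l g hh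
  refine ⟨x, hx, hA, hB, hlx, ?_⟩
  rw [Fintype.linearIndependent_iff]
  intro c hc
  rw [Fin.sum_univ_three] at hc
  simp only [Matrix.cons_val_zero, Matrix.cons_val_one, Matrix.cons_val] at hc
  have h0 : c 0 = 0 := by
    by_contra hne
    have e1 : A *ᵥ x - (-(c 1) / c 0) • (B *ᵥ x) = (-(c 2) / c 0) • l := by
      have e2 : c 0 • (A *ᵥ x) = -(c 1 • (B *ᵥ x)) - c 2 • l := by
        rw [← sub_eq_zero, ← hc]
        abel
      have e3 : A *ᵥ x = (c 0)⁻¹ • (-(c 1 • (B *ᵥ x)) - c 2 • l) := by
        rw [← e2, smul_smul, inv_mul_cancel₀ hne, one_smul]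
      rw [e3]
      funext i
      simp only [Pi.sub_apply, Pi.smul_apply, Pi.neg_apply, smul_eq_mul]
      field_simp
      ring
    have hev := k1 _ x _ hx hlx e1
    have hroot : (-(c 1) / c 0) ∈ (pl A B l).roots.toFinset := by
      rw [Multiset.mem_toFinset, mem_roots hpl]
      exact hev
    exact hx (hgh (some ⟨_, hroot⟩) x (k2' _ x _ e1) hgx hhx)
  have h1 : c 1 = 0 := by
    by_contra hne
    rw [h0, zero_smul, zero_add] at hc
    have e1 : B *ᵥ x = (-(c 2) / c 1) • l := by
      have e2 : c 1 • (B *ᵥ x) = -(c 2 • l) := eq_neg_of_add_eq_zero_left hc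
      have e3 : B *ᵥ x = (c 1)⁻¹ • (-(c 2 • l)) := by
        rw [← e2, smul_smul, inv_mul_cancel₀ hne, one_smul]
      rw [e3]
      funext i
      simp only [Pi.smul_apply, Pi.neg_apply, smul_eq_mul]
      field_simp
    exact hx (hgh none x (k3 x _ e1) hgx hhx)
  have h2 : c 2 = 0 := by
    rw [h0, h1, zero_smul, zero_smul, zero_add, zero_add] at hc
    exact (smul_eq_zero.1 hc).resolve_right hl
  intro i
  fin_cases i
  · exact h0
  · exact h1
  · exact h2

end Pool.Agent.H38.N6H
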