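import Pool.Agent.H32.N6H.Targets
import Pool.Agent.H32.N6V.NF2

/-!
# Singular vectors of hyperplane sections of a pencil of quadrics
-/

set_option autoImplicit false

open Polynomial Matrix NumberField IsDedekindDomain Pool.Agent.H32.QC Pool.Agent.H34.N6
open Pool.Agent.H32.N6H

namespace Pool.Agent.H38.N6H

section

variable {F : Type} [Field F]

theorem det_ne {n : ℕ} {A B : Matrix (Fin (n + 1)) (Fin (n + 1)) F} (h : SD A B) :
    B.det ≠ 0 := by
  intro h0
  have h1 : A.map C - (X : F[X]) • B.map C = (X : F[X]) • (-B).map C + A.map C := by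
    ext i j
    simp
    ring
  have h2 := coeff_det_X_add_C_card (-B) A
  rw [← h1, Matrix.det_neg, h0, mul_zero, Fintype.card_fin] at h2
  have hdeg := h.deg
  unfold pen at hdeg
  have h3 : (A.map C - (X : F[X]) • B.map C).det.leadingCoeff = 0 := by
    rw [leadingCoeff, hdeg, h2]
  rw [leadingCoeff_eq_zero] at h3
  rw [h3, natDegree_zero] at hdeg
  omega

/-- the kernel of a member of the pencil is at most one-dimensional -/
theorem ker_le {n : ℕ} {A B : Matrix (Fin (n + 1)) (Fin (n + 1)) F} (h : SD A B) (t : F) :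
    Module.finrank F (LinearMap.ker (A - t • B).mulVecLin) ≤ 1 := by
  have hdet := det_ne h
  have hu : IsUnit B.det := isUnit_iff_ne_zero.2 hdet
  set T : Module.End F (Fin (n + 1) → F) := Matrix.toLin' (B⁻¹ * A) with hT
  have hsep : (B⁻¹ * A).charpoly.Separable := by
    have h1 := h.sep
    unfold pen at h1
    exact h1.of_dvd (Pool.Agent.H32.N6V.ass_char hdet).dvd
  have hm := Polynomial.rootMultiplicity_le_one_of_separable hsep t
  have hfin : Module.finrank F (T.maxGenEigenspace t) ≤ 1 := by
    rw [LinearMap.finrank_maxGenEigenspace_eq, hT, Matrix.charpoly_toLin']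
    exact hm
  refine le_trans (Submodule.finrank_mono ?_) hfin
  intro y hy
  rw [LinearMap.mem_ker, Matrix.mulVecLin_apply, Matrix.sub_mulVec, Matrix.smul_mulVec,
    sub_eq_zero] at hy
  rw [Module.End.mem_maxGenEigenspace]
  refine ⟨1, ?_⟩
  rw [pow_one, LinearMap.sub_apply, LinearMap.smul_apply, hT, Matrix.toLin'_apply,
    ← Matrix.mulVec_mulVec, hy, Matrix.mulVec_smul, Matrix.mulVec_mulVec,
    Matrix.nonsing_inv_mul _ hu, Matrix.one_mulVec, Module.End.one_apply, sub_self]

/-- preimages of a line -/
theorem line_le {m : ℕ} (M : Matrix (Fin m) (Fin m) F) (l : Fin m → F)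
    (h : Module.finrank F (LinearMap.ker M.mulVecLin) ≤ 1) :
    ∃ W : Submodule F (Fin m → F), Module.finrank F W ≤ 2 ∧
      ∀ (x : Fin m → F) (a : F), M *ᵥ x = a • l → x ∈ W := by
  set W : Submodule F (Fin m → F) := (Submodule.span F {l}).comap M.mulVecLin with hW
  refine ⟨W, ?_, ?_⟩
  · have h1 := LinearMap.finrank_range_add_finrank_ker (M.mulVecLin.domRestrict W)
    have h2 : Module.finrank F (LinearMap.range (M.mulVecLin.domRestrict W)) ≤ 1 := by
      refine le_trans (Submodule.finrank_mono (t := Submodule.span F {l}) ?_) ?_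
      · rintro _ ⟨x, rfl⟩
        exact x.2
      · exact (finrank_span_le_card ({l} : Set (Fin m → F))).trans (by simp)
    have h3 : Module.finrank F (LinearMap.ker (M.mulVecLin.domRestrict W)) ≤ 1 := by
      refine le_trans ?_ h
      let φ : LinearMap.ker (M.mulVecLin.domRestrict W) →ₗ[F] LinearMap.ker M.mulVecLin :=
        { toFun := fun x => ⟨((x : W) : Fin m → F), by
            have := x.2
            rw [LinearMap.mem_ker] at this ⊢
            exact this⟩
          map_add' := fun _ _ => rfl
          map_smul' := fun _ _ => rfl }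
      refine LinearMap.finrank_le_finrank_of_injective (f := φ) ?_
      intro x y hxy
      have : ((x : W) : Fin m → F) = ((y : W) : Fin m → F) :=
        congrArg (fun z : LinearMap.ker M.mulVecLin => (z : Fin m → F)) hxy
      exact Subtype.ext (Subtype.ext this)
    omega
  · intro x a hx
    rw [hW, Submodule.mem_comap, Matrix.mulVecLin_apply, hx]
    exact Submodule.smul_mem _ _ (Submodule.mem_span_singleton_self l)

theorem eval_pl {n : ℕ} (A B : Matrix (Fin (n + 1)) (Fin (n + 1)) F) (l : Fin (n + 1) → F)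
    (t : F) : eval t (pl A B l) = l ⬝ᵥ ((A - t • B).adjugate *ᵥ l) := by
  have h1 : (Polynomial.evalRingHom t).mapMatrix (pen A B) = A - t • B := by
    ext i j
    simp only [pen, RingHom.mapMatrix_apply, Matrix.map_apply, Matrix.sub_apply,
      Matrix.smul_apply, smul_eq_mul, map_sub, coe_evalRingHom, eval_C, eval_mul, eval_X]
  have h2 : (Polynomial.evalRingHom t).mapMatrix (pen A B).adjugate = (A - t • B).adjugate := by
    rw [RingHom.map_adjugate, h1]
  have h3 : (⇑(Polynomial.evalRingHom t) ∘ cc l) = l := by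
    funext i
    simp [cc]
  unfold pl
  have h4 : (⇑(Polynomial.evalRingHom t) ∘ ((pen A B).adjugate *ᵥ cc l)) =
      (A - t • B).adjugate *ᵥ l := by
    funext i
    have := RingHom.map_mulVec (Polynomial.evalRingHom t) (pen A B).adjugate (cc l) i
    rw [Function.comp_apply, this, h3, ← h2]
    rfl
  rw [← Polynomial.coe_evalRingHom, RingHom.map_dotProduct, h3, h4]

theorem pf_KDM : T_KDM := by
  intro F _ n A B l h hl
  refine ⟨?_, ?_, ?_⟩
  · intro t x a hx hlx hCx
    rw [eval_pl]
    set M := A - t • B with hM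
    have hMx : M *ᵥ x = a • l := by
      rw [hM, Matrix.sub_mulVec, Matrix.smul_mulVec]
      exact hCx
    have h1 : M.adjugate *ᵥ (M *ᵥ x) = M.det • x := by
      rw [Matrix.mulVec_mulVec, Matrix.adjugate_mul, Matrix.smul_mulVec, Matrix.one_mulVec]
    have h2 : a * (l ⬝ᵥ (M.adjugate *ᵥ l)) = 0 := by
      have := congrArg (fun v => l ⬝ᵥ v) h1
      simp only [hMx, Matrix.mulVec_smul, dotProduct_smul, smul_eq_mul, hlx, mul_zero] at this
      exact this
    rcases mul_eq_zero.1 h2 with ha | h3
    · rw [ha, zero_smul] at hMx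
      have hdet : M.det = 0 := by
        by_contra hd
        rw [hMx, Matrix.mulVec_zero] at h1
        rcases smul_eq_zero.1 h1.symm with h4 | h4
        · exact hd h4
        · exact hx h4
      have hy : M *ᵥ (M.adjugate *ᵥ l) = 0 := by
        rw [Matrix.mulVec_mulVec, Matrix.mul_adjugate, hdet, zero_smul, Matrix.zero_mulVec]
      have hk := ker_le h t
      rw [← hM] at hk
      have hxk : x ∈ LinearMap.ker M.mulVecLin := by
        rw [LinearMap.mem_ker, Matrix.mulVecLin_apply]; exact hMx
      have hyk : M.adjugate *ᵥ l ∈ LinearMap.ker M.mulVecLin := by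
        rw [LinearMap.mem_ker, Matrix.mulVecLin_apply]; exact hy
      obtain ⟨v, hv⟩ := finrank_le_one_iff.1 hk
      obtain ⟨c, hc⟩ := hv ⟨x, hxk⟩
      obtain ⟨d, hd⟩ := hv ⟨_, hyk⟩
      have hc' : c • (v : Fin (n + 1) → F) = x := congrArg Subtype.val hc
      have hd' : d • (v : Fin (n + 1) → F) = M.adjugate *ᵥ l := congrArg Subtype.val hd
      have hc0 : c ≠ 0 := by
        rintro rfl
        rw [zero_smul] at hc'
        exact hx hc'.symm
      have hlv : l ⬝ᵥ (v : Fin (n + 1) → F) = 0 := by
        rw [← hc', dotProduct_smul, smul_eq_mul] at hlx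
        exact (mul_eq_zero.1 hlx).resolve_left hc0
      rw [← hd', dotProduct_smul, hlv, smul_zero]
    · exact h3
  · intro t
    obtain ⟨W, hW, hW'⟩ := line_le (A - t • B) l (ker_le h t)
    refine ⟨W, hW, fun x a hx => hW' x a ?_⟩
    rw [Matrix.sub_mulVec, Matrix.smul_mulVec]
    exact hx
  · refine line_le B l ?_
    have hu : IsUnit B.det := isUnit_iff_ne_zero.2 (det_ne h)
    have : LinearMap.ker B.mulVecLin = ⊥ := by
      rw [LinearMap.ker_eq_bot']
      intro x hx
      rw [Matrix.mulVecLin_apply] at hx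
      have := congrArg (fun v => B⁻¹ *ᵥ v) hx
      simp only [Matrix.mulVec_mulVec, Matrix.nonsing_inv_mul _ hu, Matrix.one_mulVec,
        Matrix.mulVec_zero] at this
      exact this
    rw [this, finrank_bot]
    exact zero_le_one

end

end Pool.Agent.H38.N6H
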